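import Pool.Agent.Q167.OneCycle.Main

/-!
# Avoider keeps at most one cycle under linear bias

In the `(1:b)` Avoider-Enforcer game on the edges of the complete graph on `n` vertices, Avoider can
guarantee that his final graph contains at most one cycle whenever `b ≥ 56 n`, under the strict
and under the monotone rules.
-/

set_option autoImplicit false

namespace Pool.Agent.Results.MP_24f62a_co.LinearBias

open Q167.OneCycle

/-- For all `n ≥ 3` and all `b ≥ 56 n`, under both rule sets, Avoider has a strategy in the `(1:b)`
game on the edges of `K_n` which guarantees that his final graph contains at most one cycle. -/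
theorem result (n b : ℕ) (_hn : 3 ≤ n) (hb : 56 * n ≤ b) :
    AvoiderKeepsOneCycle Rules.strict n b ∧ AvoiderKeepsOneCycle Rules.monotone n b :=
  ⟨avoider_keeps_one_cycle n b hb Rules.strict, avoider_keeps_one_cycle n b hb Rules.monotone⟩

end Pool.Agent.Results.MP_24f62a_co.LinearBias
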